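import Pool.Agent.Helper1.UQ.St2

/-! # Project UQ, module MDW: smaller domain, larger measure. -/

set_option autoImplicit false

open Finset

namespace Pool.Agent.Helper34.UQ

open Classical Pool.Agent.Helper30.RCU Pool.Agent.Helper1.UQ

universe u

lemma insert_any {α : Type u} (i j : DecidableEq α) (b : α) (s : Finset α) :
    @Insert.insert _ _ (@Finset.instInsert _ i) b s =
      @Insert.insert _ _ (@Finset.instInsert _ j) b s := by
  have h : i = j := Subsingleton.elim _ _
  rw [h]

theorem hMDW (hCTR : StCTR.{u}) : StMDW.{u} := by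
  intro V G p t q hp hp1 ht ht1 hq I I' A A' U U' hI hA hAout hU hUout f hf0 hfm hfA hfU
  unfold eD
  have h1 := hCTR _ _ _ (pI G I') (sg I) (pr G p t) q (pr_nonneg hp ht) (pr_le_one hp1 ht1) hq
    (A'.disjSum U') f hf0 hfm
  rw [cm_pI hI] at h1
  refine h1.trans (le_of_eq ?_)
  set L : Finset (GE G) := (A'.disjSum U').filter fun e => e ∉ A.disjSum U with hLdef
  have h2 := ex_loops (φ := pI G I) (p := pr G p t) (q := q) (pr_nonneg hp ht)
    (pr_le_one hp1 ht1) hq (A.disjSum U) L f ?_ ?_
  · rw [← h2]
    congr 1
    ext e
    simp only [mem_union, hLdef, mem_filter]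
    constructor
    · intro he
      by_cases h3 : e ∈ A.disjSum U
      · exact Or.inl h3
      · exact Or.inr ⟨he, h3⟩
    · rintro (h3 | h3)
      · rcases e with e | v
        · rw [inl_mem_disjSum] at h3 ⊢
          exact hA h3
        · rw [inr_mem_disjSum] at h3 ⊢
          exact hU h3
      · exact h3.1
  · intro e he
    rw [hLdef, mem_filter] at he
    refine ⟨none, ?_⟩
    rcases e with e | v
    · rw [inl_mem_disjSum, inl_mem_disjSum] at he
      have h4 := hAout e he.1 he.2
      have h5 : pI G I (Sum.inl e) = ((e : Sym2 V).map some).map (sg I) := rfl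
      rw [h5]
      revert h4
      generalize (e : Sym2 V) = s
      induction s using Sym2.ind with
      | _ a b =>
        intro h4
        rw [Sym2.map_mk, Sym2.map_mk]
        rw [sg_some_of_notMem (h4 a (Sym2.mem_mk_left a b)),
          sg_some_of_notMem (h4 b (Sym2.mem_mk_right a b))]
    · rw [inr_mem_disjSum, inr_mem_disjSum] at he
      have h4 := hUout v he.1 he.2
      have h5 : pI G I (Sum.inr v) = (s(some v, none) : Sym2 (Option V)).map (sg I) := rfl
      rw [h5, Sym2.map_mk, sg_some_of_notMem h4, sg_none]
  · intro e he ω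
    rw [hLdef, mem_filter] at he
    rcases e with e | v
    · rw [inl_mem_disjSum, inl_mem_disjSum] at he
      have h4 := hfA e he.1 he.2 ω
      exact (congrArg f (insert_any _ _ _ _)).trans h4
    · rw [inr_mem_disjSum, inr_mem_disjSum] at he
      have h4 := hfU v he.1 he.2 ω
      exact (congrArg f (insert_any _ _ _ _)).trans h4

end Pool.Agent.Helper34.UQ
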